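import Pool.Agent.W524.SH.Mean
import Pool.Agent.W263.LG.NFSys

/-!
# Birch and Swinnerton-Dyer over number fields as a law for point counts, with a rate

Let `K` be a number field, `E : y² = x³ + a x + b` an elliptic curve, `a, b ∈ 𝓞 K` (every elliptic curve over
`K` has such an equation), `S` a finite set of places which contains all places dividing
`2 (4a³ + 27b²)`, and let the Euler factors of `L(E/K, s)` at the places of `S` be arbitrary inverse
polynomials `B_v(q_v^{-s})⁻¹` without poles for `Re s ≥ 1` (for the Hasse-Weil `L`-function they are of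
the usual form, of degree at most `2`).  Let `F` be a continuation of `L(E/K, s)` to `Re s > 0` of
polynomial growth (known for `E` over `ℚ` and `K/ℚ` abelian, and in many other cases), `N_v` the number of
affine points of `E` over the residue field at `v`, `a_v = q_v - N_v`, and put

  `P(x) = ∏_{v ∉ S, q_v ≤ x} (N_v + 1) / q_v`,
  `P*(x) = ∏_{v ∈ S} |B_v(q_v⁻¹)| · P(x) · exp(∑_{v ∉ S, √x < q_v ≤ x} (a_v² - 2 q_v) / (2 q_v²))`.

For a real number `q` and `Λ > 0` the conjunction of the Riemann hypothesis for `L(E/K, s)`, of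
`ord_{s=1} L(E/K, s) = q` and of `|L*(E/K)| = Λ` is equivalent to the formula of Birch and Swinnerton-Dyer
`P*(x) ~ e^{γ q} Λ⁻¹ (log x)^q` in logarithmic mean; and if this formula holds in logarithmic mean, with
an error which is only `o(1)`, then it holds in mean square over `[x, x²]` with the error `O(1 / log x)`.
With `q = rank E(K)` and `Λ` the value predicted by the refined conjecture of Birch and Swinnerton-Dyer this
is an exact translation of the analytic part of the conjecture, together with the Riemann hypothesis,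
into a statement about the numbers `N_v`.

The proof of the rate: under the Riemann hypothesis `F'/F` is controlled near the line `Re s = 1` by the
zeros in boxes of bounded size (Landau's lemma), and Plancherel's theorem for the derivative of the
Laplace transform of the deviation gives a bound of Cramér's type (`Pool.Agent.W524.SH`).
-/

set_option autoImplicit false

namespace Pool.Agent.Results.MP_f50388_nt.AutomaticRate

open NumberField IsDedekindDomain Filter Topology Polynomial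

noncomputable section

variable {K : Type} [Field K] [NumberField K]

/-- The number of affine points of `y² = x³ + a x + b` over the residue field at `v`. -/
def pointCount (a b : 𝓞 K) (v : HeightOneSpectrum (𝓞 K)) : ℕ :=
  Nat.card {Q : (𝓞 K ⧸ v.asIdeal) × (𝓞 K ⧸ v.asIdeal) //
    Q.2 ^ 2 = Q.1 ^ 3 + Ideal.Quotient.mk v.asIdeal a * Q.1 + Ideal.Quotient.mk v.asIdeal b}

/-- `a_v = q_v - N_v`, `q_v = Nv`, `N_v` the number of affine points. -/
def frobTrace (a b : 𝓞 K) (v : HeightOneSpectrum (𝓞 K)) : ℝ :=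
  (Ideal.absNorm v.asIdeal : ℝ) - pointCount a b v

open Classical in
/-- The Euler product `L(E/K, s)`: the factor at `v ∉ S` is `(1 - a_v q_v^{-s} + q_v^{1-2s})⁻¹`, at the
places of the finite set `S` it is `B_v(q_v^{-s})⁻¹`. -/
def LFun (a b : 𝓞 K) (S : Finset (HeightOneSpectrum (𝓞 K)))
    (B : HeightOneSpectrum (𝓞 K) → ℂ[X]) (s : ℂ) : ℂ :=
  ∏' v : HeightOneSpectrum (𝓞 K),
    if v ∈ S then ((B v).eval (((Ideal.absNorm v.asIdeal : ℕ) : ℂ) ^ (-s)))⁻¹
    else (1 - (frobTrace a b v : ℂ) * ((Ideal.absNorm v.asIdeal : ℕ) : ℂ) ^ (-s) +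
      ((Ideal.absNorm v.asIdeal : ℕ) : ℂ) ^ (1 - 2 * s))⁻¹

/-- The Euler factors at the places of `S` have no poles for `Re s ≥ 1`. -/
def BadFactors (S : Finset (HeightOneSpectrum (𝓞 K)))
    (B : HeightOneSpectrum (𝓞 K) → ℂ[X]) : Prop :=
  ∀ v ∈ S, ∀ s : ℂ, 1 ≤ s.re → (B v).eval (((Ideal.absNorm v.asIdeal : ℕ) : ℂ) ^ (-s)) ≠ 0

/-- `F` continues `L(E/K, s)` analytically to the half plane `Re s > 0`, with polynomial growth. -/
def Continues (a b : 𝓞 K) (S : Finset (HeightOneSpectrum (𝓞 K)))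
    (B : HeightOneSpectrum (𝓞 K) → ℂ[X]) (F : ℂ → ℂ) : Prop :=
  (∀ s : ℂ, 0 < s.re → DifferentiableAt ℂ F s) ∧
  (∀ s : ℂ, 3 / 2 < s.re → F s = LFun a b S B s) ∧
    ∃ (C : ℝ) (A : ℕ), ∀ s : ℂ, 0 < s.re → ‖F s‖ ≤ C * (1 + ‖s‖) ^ A

/-- The product of Birch and Swinnerton-Dyer `P(x) = ∏_{v ∉ S, q_v ≤ x} (N_v + 1) / q_v`. -/
def bsdProduct (a b : 𝓞 K) (S : Finset (HeightOneSpectrum (𝓞 K))) (x : ℝ) : ℝ :=
  ∏ᶠ v ∈ {v : HeightOneSpectrum (𝓞 K) | v ∉ S ∧ (Ideal.absNorm v.asIdeal : ℝ) ≤ x},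
    ((pointCount a b v : ℝ) + 1) / Ideal.absNorm v.asIdeal

/-- The corrected product
`P*(x) = |∏_{v ∈ S} B_v(q_v⁻¹)| · P(x) · exp(∑_{v ∉ S, √x < q_v ≤ x} (a_v² - 2 q_v) / (2 q_v²))`. -/
def bsdStar (a b : 𝓞 K) (S : Finset (HeightOneSpectrum (𝓞 K)))
    (B : HeightOneSpectrum (𝓞 K) → ℂ[X]) (x : ℝ) : ℝ :=
  ‖∏ v ∈ S, (B v).eval ((((Ideal.absNorm v.asIdeal : ℕ) : ℂ))⁻¹)‖ *
    (bsdProduct a b S x * Real.exp (∑ᶠ v ∈ {v : HeightOneSpectrum (𝓞 K) | v ∉ S ∧
      √x < (Ideal.absNorm v.asIdeal : ℝ) ∧ (Ideal.absNorm v.asIdeal : ℝ) ≤ x},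
        (frobTrace a b v ^ 2 - 2 * (Ideal.absNorm v.asIdeal : ℝ)) /
          (2 * (Ideal.absNorm v.asIdeal : ℝ) ^ 2)))

/-- The absolute value `|F^{(r)}(1)| / r!` of the leading coefficient. -/
def leadAbs (F : ℂ → ℂ) (r : ℕ) : ℝ := ‖iteratedDeriv r F 1‖ / (r.factorial : ℝ)

/-- `P*(x) ~ A (log x)^q` in logarithmic mean:
`(1 / log X) ∫_2^X |log (P*(x) / (A (log x)^q))| dx/x → 0`. -/
def InLogMean (Q : ℝ → ℝ) (q A : ℝ) : Prop :=
  Tendsto (fun X : ℝ => (Real.log X)⁻¹ *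
    ∫ x in Set.Ioc 2 X, |Real.log (Q x / (A * Real.log x ^ q))| / x) atTop (𝓝 0)

/-- `∫_2^∞ log² (Q(x) / (A (log x)^q)) dx/x < ∞`. -/
def SquareIntegrable (Q : ℝ → ℝ) (q A : ℝ) : Prop :=
  MeasureTheory.IntegrableOn (fun x : ℝ => Real.log (Q x / (A * Real.log x ^ q)) ^ 2 / x)
    (Set.Ioi 2)

/-- For some `C` and all large `x`, `∫_x^{x²} log² (Q(y) / (A (log y)^q)) dy/y ≤ C / log x`. -/
def WithRate (Q : ℝ → ℝ) (q A : ℝ) : Prop :=
  ∃ C : ℝ, ∀ᶠ x : ℝ in atTop,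
    ∫ y in Set.Ioc x (x ^ 2), Real.log (Q y / (A * Real.log y ^ q)) ^ 2 / y ≤ C / Real.log x

/-! ### Translation -/

open Pool.Agent.W263.LG.NF (powerTrace tdataK LFB_K central norm_ge_two)
open Pool.Agent.W263.EP (PP PS IsContB IsFullB bc BB LFB)
open Pool.Agent.W524.LV (QQ lead)
open Pool.Agent.H341R2 (sysK)

theorem cen : ((1 : ℝ) + 1) / 2 = 1 := by norm_num

theorem cen2 : ((1 : ℝ) + 2) / 2 = 3 / 2 := by norm_num

theorem hcc : ((((1 : ℝ) + 1) / 2 : ℝ) : ℂ) = 1 := by rw [cen, Complex.ofReal_one]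

theorem PP_eq {a b : 𝓞 K} {S : Finset (sysK K).X} (hS : ∀ v, v ∉ S → (2 : 𝓞 K) ∉ v.asIdeal) :
    PP (sysK K) (S : Set (sysK K).X) (powerTrace a b) 1 = bsdProduct a b S := by
  funext x
  unfold PP bsdProduct
  refine finprod_mem_congr rfl fun (v : HeightOneSpectrum (𝓞 K)) hv => ?_
  have hv' : v ∉ S := hv.1
  rw [central v (hS v hv')]
  rfl

theorem bc_eq {S : Finset (sysK K).X} (B : HeightOneSpectrum (𝓞 K) → ℂ[X]) :
    bc (sysK K) S B 1 = ‖∏ v ∈ (show Finset (HeightOneSpectrum (𝓞 K)) from S),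
      (B v).eval ((((Ideal.absNorm v.asIdeal : ℕ) : ℂ))⁻¹)‖ := by
  unfold bc BB
  congr 1
  refine Finset.prod_congr rfl fun v _ => ?_
  rw [hcc, Complex.cpow_neg_one]
  rfl

theorem two_eq {a b : 𝓞 K} (v : HeightOneSpectrum (𝓞 K)) :
    powerTrace a b v 2 * (Ideal.absNorm v.asIdeal : ℝ) ^ (-(1 + 1) : ℝ) / 2 =
      (frobTrace a b v ^ 2 - 2 * (Ideal.absNorm v.asIdeal : ℝ)) /
        (2 * (Ideal.absNorm v.asIdeal : ℝ) ^ 2) := by
  have hN : (0 : ℝ) < (Ideal.absNorm v.asIdeal : ℝ) := by linarith [norm_ge_two v]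
  have e2 : powerTrace a b v 2 = frobTrace a b v ^ 2 - 2 * (Ideal.absNorm v.asIdeal : ℝ) := by
    have : powerTrace a b v 2 = Pool.Agent.W263.LG.NF.frobTrace a b v *
      Pool.Agent.W263.LG.NF.frobTrace a b v - (Ideal.absNorm v.asIdeal : ℝ) * 2 := rfl
    rw [this]
    have h3 : Pool.Agent.W263.LG.NF.frobTrace a b v = frobTrace a b v := rfl
    rw [h3]
    ring
  rw [e2, show (-(1 + 1) : ℝ) = -((2 : ℕ) : ℝ) by norm_num, Real.rpow_neg hN.le,
    Real.rpow_natCast]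
  field_simp

theorem PS_eq {a b : 𝓞 K} {S : Finset (sysK K).X} (hS : ∀ v, v ∉ S → (2 : 𝓞 K) ∉ v.asIdeal)
    (x : ℝ) : PS (sysK K) (S : Set (sysK K).X) (powerTrace a b) 1 x =
      bsdProduct a b S x * Real.exp (∑ᶠ v ∈ {v : HeightOneSpectrum (𝓞 K) |
        v ∉ (show Finset (HeightOneSpectrum (𝓞 K)) from S) ∧
        √x < (Ideal.absNorm v.asIdeal : ℝ) ∧ (Ideal.absNorm v.asIdeal : ℝ) ≤ x},
        (frobTrace a b v ^ 2 - 2 * (Ideal.absNorm v.asIdeal : ℝ)) /
          (2 * (Ideal.absNorm v.asIdeal : ℝ) ^ 2)) := by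
  have h2 := congrFun (PP_eq (a := a) (b := b) hS) x
  unfold PS
  rw [h2]
  congr 2
  refine finsum_mem_congr rfl fun (v : HeightOneSpectrum (𝓞 K)) hv => ?_
  exact two_eq v

theorem QQ_eq {a b : 𝓞 K} {S : Finset (sysK K).X} (hS : ∀ v, v ∉ S → (2 : 𝓞 K) ∉ v.asIdeal)
    (B : HeightOneSpectrum (𝓞 K) → ℂ[X]) :
    QQ (sysK K) S B (powerTrace a b) 1 = bsdStar a b S B := by
  funext x
  unfold QQ bsdStar
  rw [bc_eq, PS_eq hS]

/-- **The formula of Birch and Swinnerton-Dyer over a number field, in logarithmic mean and with a rate.**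

Let `F` be a continuation of `L(E/K, s)` to `Re s > 0` of polynomial growth.  Then `r = ord_{s=1} F` is
finite, `|F^{(r)}(1)| / r! > 0`, and for all real numbers `q` and `Λ > 0`, with `A = e^{γ q} / Λ`, the
following are equivalent:

1. `F(s) ≠ 0` for `Re s > 1`, `ord_{s=1} F = q` and `|F^{(r)}(1)| / r! = Λ`;
2. `(1 / log X) ∫_2^X |log (P*(x) / (A (log x)^q))| dx/x → 0`;
3. `∫_2^∞ log² (P*(x) / (A (log x)^q)) dx/x < ∞`;
4. `∫_x^{x²} log² (P*(y) / (A (log y)^q)) dy/y = O(1 / log x)`. -/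
theorem result (K : Type) [Field K] [NumberField K] (a b : 𝓞 K)
    (S : Finset (HeightOneSpectrum (𝓞 K)))
    (hS : ∀ v, v ∉ S → 2 * (4 * a ^ 3 + 27 * b ^ 2) ∉ v.asIdeal)
    (B : HeightOneSpectrum (𝓞 K) → ℂ[X]) (hB : BadFactors S B)
    (F : ℂ → ℂ) (hF : Continues a b S B F) :
    ∃ r : ℕ, analyticOrderAt F 1 = r ∧ 0 < leadAbs F r ∧
    ∀ q Λ : ℝ, 0 < Λ → List.TFAE [
      (∀ s : ℂ, 1 < s.re → F s ≠ 0) ∧ (r : ℝ) = q ∧ leadAbs F r = Λ,
      InLogMean (bsdStar a b S B) q (Real.exp (q * Real.eulerMascheroniConstant) / Λ),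
      SquareIntegrable (bsdStar a b S B) q (Real.exp (q * Real.eulerMascheroniConstant) / Λ),
      WithRate (bsdStar a b S B) q (Real.exp (q * Real.eulerMascheroniConstant) / Λ)] := by
  revert S
  intro (S : Finset (Pool.Agent.H341R2.sysK K).X) hS hB hF
  have hS2 : ∀ v, v ∉ S → (2 : 𝓞 K) ∉ v.asIdeal := fun v hv h =>
    hS v hv (v.asIdeal.mul_mem_right _ h)
  have E : Pool.Agent.W263.EP.TData (sysK K)
      (Pool.Agent.W263.EP.tn (sysK K) (S : Set (sysK K).X) (powerTrace a b) 1) 2 := tdataK hS2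
  have hB' : ∀ x ∈ S, ∀ s : ℂ, ((1 : ℝ) + 1) / 2 ≤ s.re →
      (B x).eval ((((sysK K).N x : ℕ) : ℂ) ^ (-s)) ≠ 0 := by
    intro x hx s hs
    rw [cen] at hs
    exact hB x hx s hs
  have hd : ∀ s : ℂ, ((1 : ℝ) + 1) / 2 - 1 < s.re → DifferentiableAt ℂ F s := fun s hs =>
    hF.1 s (by rw [cen] at hs; linarith)
  have he : ∀ s : ℂ, ((1 : ℝ) + 2) / 2 < s.re → F s = LFB (sysK K) S B (powerTrace a b) s := by
    intro s hs
    rw [cen2] at hs
    rw [LFB_K hS2 B (by linarith), hF.2.1 s hs]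
    rfl
  have hg : ∃ (C : ℝ) (A : ℕ), ∀ s : ℂ, ((1 : ℝ) + 1) / 2 - 1 < s.re →
      ‖F s‖ ≤ C * (1 + ‖s‖) ^ A := by
    obtain ⟨C, A, h⟩ := hF.2.2
    exact ⟨C, A, fun s hs => h s (by rw [cen] at hs; linarith)⟩
  have hC : IsContB (sysK K) S B (powerTrace a b) 1 F := Pool.Agent.W524.SH.isContB hd he
  have hA : AnalyticAt ℂ F ((((1 : ℝ) + 1) / 2 : ℝ) : ℂ) := Pool.Agent.W524.SH.an_centre hd
  obtain ⟨r, hr⟩ := Pool.Agent.W524.LV.order_finite E hB' hC hA
  have hL : lead F (((1 : ℝ) + 1) / 2) r = leadAbs F r := by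
    unfold lead leadAbs
    rw [hcc]
  have hpos : 0 < leadAbs F r := by
    rw [← hL]
    exact (Pool.Agent.W263.EP.lead_limit_at hA hr).1
  refine ⟨r, by rw [← hcc]; exact hr, hpos, fun q Λ hΛ => ?_⟩
  have hAp : 0 < Real.exp (q * Real.eulerMascheroniConstant) / Λ := div_pos (Real.exp_pos _) hΛ
  have T := Pool.Agent.W524.SH.rate_tfae E hB' hd he hr hg q hAp
  rw [hL, QQ_eq (a := a) (b := b) hS2 B] at T
  have e1 : Real.exp (q * Real.eulerMascheroniConstant) / Λ =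
      Real.exp (q * Real.eulerMascheroniConstant) / leadAbs F r ↔ leadAbs F r = Λ := by
    constructor
    · intro h
      rw [div_eq_div_iff hΛ.ne' hpos.ne'] at h
      exact mul_left_cancel₀ (Real.exp_pos _).ne' h
    · intro h
      rw [h]
  rw [e1] at T
  simp only [cen] at T
  exact T

end

end Pool.Agent.Results.MP_f50388_nt.AutomaticRate
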