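import Pool.Agent.W524.LC.NF

/-!
# The leading coefficient of `L(E/K, s)` at `s = 1` and the products of Birch and Swinnerton-Dyer

Let `K` be any number field, `E : y² = x³ + a x + b` an elliptic curve, `a, b ∈ 𝓞 K` (every elliptic curve
over `K`, in particular every base change of a curve over `ℚ`, has such an equation), and let `N_v` be
the number of affine points of `E` over the residue field at a prime `v ∤ 2(4a³ + 27b²)`, of norm `q_v`. Let

`P(x) = ∏_{q_v ≤ x} (N_v + 1)/q_v · exp (∑_{√x < q_v ≤ x} ((q_v - N_v)² - 2 q_v)/(2 q_v²))`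

be the original product of Birch and Swinnerton-Dyer with the (bounded) correction by the squares of
the primes between `√x` and `x` (for `K = ℚ` the correction tends to `1/√2`; this is the factor `√2` found
by Goldfeld). Let `A_k(v)` be the `k`-fold iterated average of `t ↦ log P(e^t)` against the half Gaussian
density `e^{-t²/4v} / √(πv)` on `t > 0`, and let `γ` be Euler's constant.

* Suppose that `L(E/K, s)` continues analytically along the real ray `[1, ∞)`. For `m ∈ ℕ` and `Λ > 0`: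
  `L(E/K, s)` has no real zeros `> 1` and `L(E/K, s) / (s - 1)^m → Λ` as `s → 1` if and only if
  `A_k(v) = 2^{-k} m (log v + γ) - log Λ + o(1)` for some `k ≥ 1`, equivalently for all large `k`.
* Suppose that `L(E/K, s)` is entire. Then `P(x) ~ (e^γ log x)^m / Λ` if and only if
  `L(E/K, s) / (s - 1)^m → Λ` as `s → 1` and `P` is slowly oscillating from above: for every `ε > 0` there
  is an `l > 1` with `P(y) ≤ (1 + ε) P(x)` for all large `x` and `x ≤ y ≤ x^l`. The same holds for slow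
  oscillation from below if `L(E/K, s)` has no real zeros `> 1`.

With `m` the rank of `E(K)` and `Λ` the value predicted by the refined conjecture of Birch and
Swinnerton-Dyer (times the omitted Euler factors at `s = 1`) the left hand sides are the order and
leading coefficient assertions of the conjecture.
-/

set_option autoImplicit false

namespace Pool.Agent.Results.MP_f50388_nt.LeadingCoefficient

open MeasureTheory Filter Topology NumberField IsDedekindDomain

noncomputable section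

variable {K : Type} [Field K] [NumberField K]

/-- The number of affine points of `y² = x³ + a x + b` over the residue field at `v`. -/
def pointCount (a b : 𝓞 K) (v : HeightOneSpectrum (𝓞 K)) : ℕ :=
  Nat.card {q : (𝓞 K ⧸ v.asIdeal) × (𝓞 K ⧸ v.asIdeal) //
    q.2 ^ 2 = q.1 ^ 3 + Ideal.Quotient.mk v.asIdeal a * q.1 + Ideal.Quotient.mk v.asIdeal b}

/-- The primes not dividing `2 (4a³ + 27b²)`. -/
def GoodPrime (a b : 𝓞 K) (v : HeightOneSpectrum (𝓞 K)) : Prop :=
  2 * (4 * a ^ 3 + 27 * b ^ 2) ∉ v.asIdeal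

open Classical in
/-- The Euler factor at `v`. -/
def eulerFactor (a b : 𝓞 K) (s : ℂ) (v : HeightOneSpectrum (𝓞 K)) : ℂ :=
  if GoodPrime a b v then
    (1 - ((Ideal.absNorm v.asIdeal : ℂ) - (pointCount a b v : ℂ)) * (Ideal.absNorm v.asIdeal : ℂ) ^ (-s) +
      (Ideal.absNorm v.asIdeal : ℂ) ^ (1 - 2 * s))⁻¹ else 1

/-- `F` is given by the Euler product over the good primes on `Re s > 2`. -/
def IsLSeries (a b : 𝓞 K) (F : ℂ → ℂ) : Prop :=
  ∀ s : ℂ, 2 < s.re → HasProd (eulerFactor a b s) (F s)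

/-- The product of `(N_v + 1)/q_v` over the finitely many good primes with `q_v ≤ x`, multiplied by the
exponential of the sum of `((q_v - N_v)² - 2 q_v)/(2 q_v²)` over the good primes with `√x < q_v ≤ x`. -/
def bsdProduct (a b : 𝓞 K) (x : ℝ) : ℝ :=
  (∏ᶠ v ∈ {v : HeightOneSpectrum (𝓞 K) | GoodPrime a b v ∧ (Ideal.absNorm v.asIdeal : ℝ) ≤ x},
    ((pointCount a b v : ℝ) + 1) / Ideal.absNorm v.asIdeal) *
  Real.exp (∑ᶠ v ∈ {v : HeightOneSpectrum (𝓞 K) | GoodPrime a b v ∧
      Real.sqrt x < Ideal.absNorm v.asIdeal ∧ (Ideal.absNorm v.asIdeal : ℝ) ≤ x},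
    (((Ideal.absNorm v.asIdeal : ℝ) - pointCount a b v) ^ 2 - 2 * Ideal.absNorm v.asIdeal) /
      (2 * (Ideal.absNorm v.asIdeal : ℝ) ^ 2))

/-- The average of `f` against the density `e^{-t²/4v} / √(πv)` on `t > 0`. -/
def gaussAvg (f : ℝ → ℝ) (v : ℝ) : ℝ :=
  ∫ t in Set.Ioi (0 : ℝ), f t * (Real.exp (-(t ^ 2 / (4 * v))) / Real.sqrt (Real.pi * v))

/-- The `k`-fold iterated average of `t ↦ log P(e^t)`. -/
def average (a b : 𝓞 K) (k : ℕ) : ℝ → ℝ :=
  gaussAvg^[k] fun t => Real.log (bsdProduct a b (Real.exp t))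

/-- `F(s)/(s - 1)^m → Λ` as `s → 1`; for `Λ ≠ 0` and `F` analytic at `1`: the order of vanishing is `m` and
the leading coefficient is `Λ`. -/
def HasLeading (F : ℂ → ℂ) (m : ℕ) (Λ : ℝ) : Prop :=
  Tendsto (fun s : ℂ => F s / (s - 1) ^ m) (𝓝[≠] 1) (𝓝 (Λ : ℂ))

/-- `P(y) ≤ (1 + ε) P(x)` for `x ≤ y ≤ x^l`, `x` large. -/
def SlowUp (P : ℝ → ℝ) : Prop := ∀ ε : ℝ, 0 < ε → ∃ l : ℝ, 1 < l ∧ ∀ᶠ x : ℝ in atTop, ∀ y : ℝ,
  x ≤ y → y ≤ x ^ l → P y ≤ (1 + ε) * P x

/-- `P(x) ≤ (1 + ε) P(y)` for `x ≤ y ≤ x^l`, `x` large. -/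
def SlowDown (P : ℝ → ℝ) : Prop := ∀ ε : ℝ, 0 < ε → ∃ l : ℝ, 1 < l ∧ ∀ᶠ x : ℝ in atTop, ∀ y : ℝ,
  x ≤ y → y ≤ x ^ l → P x ≤ (1 + ε) * P y

theorem result (a b : 𝓞 K) (_hΔ : 4 * a ^ 3 + 27 * b ^ 2 ≠ 0) (F : ℂ → ℂ) (hL : IsLSeries a b F)
    (m : ℕ) (Λ : ℝ) (hΛ : 0 < Λ) :
    ((∀ x : ℝ, 1 ≤ x → AnalyticAt ℂ F x) →
      (((∀ x : ℝ, 1 < x → F x ≠ 0) ∧ HasLeading F m Λ) ↔
        ∃ k : ℕ, 1 ≤ k ∧ Tendsto (fun v => average a b k v -
          (m / 2 ^ k : ℝ) * (Real.log v + Real.eulerMascheroniConstant)) atTop (𝓝 (-Real.log Λ))) ∧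
      (((∀ x : ℝ, 1 < x → F x ≠ 0) ∧ HasLeading F m Λ) ↔
        ∃ k₀ : ℕ, 1 ≤ k₀ ∧ ∀ k : ℕ, k₀ ≤ k → Tendsto (fun v => average a b k v -
          (m / 2 ^ k : ℝ) * (Real.log v + Real.eulerMascheroniConstant)) atTop
            (𝓝 (-Real.log Λ)))) ∧
    (Differentiable ℂ F →
      List.TFAE [
        Tendsto (fun x => bsdProduct a b x / Real.log x ^ m) atTop
          (𝓝 (Real.exp (m * Real.eulerMascheroniConstant) / Λ)),
        HasLeading F m Λ ∧ SlowUp (bsdProduct a b),
        HasLeading F m Λ ∧ (∀ x : ℝ, 1 < x → F x ≠ 0) ∧ SlowDown (bsdProduct a b)]) := by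
  constructor
  · intro hF
    obtain ⟨C, hC⟩ := W524.LC.tame_cor (W334.BSD.NF.ep a b) (W524.LC.NF.mert a b)
    obtain ⟨D, hD⟩ := W334.BSD.NF.tame_bK a b
    obtain ⟨E, hE⟩ := W524.LC.cor_close (W334.BSD.NF.ep a b) (W524.LC.NF.mert a b)
    have hE0 := W524.LC.cor_lim (W334.BSD.NF.ep a b) (W524.LC.NF.mert a b)
    have hFB : ∀ s : ℂ, 1 < s.re →
        F (1 + s) = Complex.exp (s * W334.BSD.LT (W334.BSD.NF.bK a b) s) := by
      intro s hs
      have h1 := hL (1 + s) (by rw [Complex.add_re, Complex.one_re]; linarith)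
      exact h1.unique (W334.BSD.NF.Lseries a b hs)
    have hF' : ∀ x : ℝ, 0 ≤ x → AnalyticAt ℂ (fun q => F (1 + q)) x := by
      intro x hx
      have h2 := hF (1 + x) (by linarith)
      push_cast at h2
      exact AnalyticAt.comp (f := fun q : ℂ => 1 + q) h2 (analyticAt_const.add analyticAt_id)
    have hz : (∀ x : ℝ, 0 < x → F (1 + x) ≠ 0) ↔ (∀ x : ℝ, 1 < x → F x ≠ 0) := by
      constructor
      · intro h x hx
        have := h (x - 1) (by linarith)
        push_cast at this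
        rwa [add_sub_cancel] at this
      · intro h x hx
        have := h (1 + x) (by linarith)
        push_cast at this
        exact this
    have key := W524.LC.ray_lead W605.LCEin.ein hC hD hE hE0 hF' hFB m hΛ
    rw [hz, ← W524.LC.shift_lead] at key
    have hav : ∀ k, average a b k = W334.BSD.gaussAvg^[k]
        (W524.LC.cor (W334.BSD.NF.nn a b) (W334.BSD.NF.zz a b)) := by
      intro k
      have h1 : (fun t => Real.log (bsdProduct a b (Real.exp t))) =
          W524.LC.cor (W334.BSD.NF.nn a b) (W334.BSD.NF.zz a b) :=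
        funext fun t => W524.LC.NF.log_cprd a b t
      unfold average
      rw [h1]
      rfl
    simp only [hav]
    exact key
  · intro hF
    obtain ⟨α, G, B, D, hc0, hG0⟩ := W524.LC.NF.bs0 a b hF hL
    exact W524.LC.BS.lead_tfae D hF hc0 hG0 m hΛ

end

end Pool.Agent.Results.MP_f50388_nt.LeadingCoefficient
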